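import Pool.Agent.Helper18.FM.GoalsB
import Pool.Agent.Helper29.HL.HSP

/-!
# FM-FSP: the limit `X` is selfadjoint, semidefinite, of constant trace, and its forms are invariant

Copy of the first three parts of `hsp` (`Helper29/HL/HSP.lean`), with `SF`, `LimF`.
-/

open Complex Metric Set Filter Topology MeasureTheory
open scoped ContDiff ComplexConjugate ComplexOrder Manifold Matrix

namespace Pool.Agent.Helper49.FM.FSP

open Pool.Agent.Helper95.Lin Pool.Agent.Helper16.Abund Pool.Agent.Helper92.Orb
  Pool.Agent.Helper10.SP Pool.Agent.Helper95.RK Pool.Agent.Helper57.HS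
  Pool.Agent.Helper15.HS Pool.Agent.Helper15.GS Pool.Agent.Helper57.RBC Pool.Agent.Helper82.HB
open Pool.Agent.Helper10.RBC (dn)
open Pool.Agent.Helper29.HB (WL)
open Pool.Agent.Helper29.HL
open Pool.Agent.Helper18.FM

universe u

/-- FSP (uses ARRB, FCL, FDB). -/
theorem t (hARRB : S_ARRB.{u}) (hFCL : S_FCL.{u}) (hFDB : S_FDB.{u}) :
    Pool.Agent.Helper18.FM.S_FSP.{u} := by
  intro n m T G _ R H σ h χ c ψ D κ X s S N φ H' ε Q hL
  have hT := D.ket.et.isOpen
  have hQ : ∀ j, KEt T R (Q j) := fun j => (hL.seq.tke j).ket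
  have hB := fun j => (hFDB T R H σ h D.ket D.sf).1 (ε j) (Q j) (hL.seq.eps j) (hQ j)
  have hhc : ContinuousOn h T := cofent fun i j => (D.sf.smooth i j).continuousOn
  have hσc : ContinuousOn σ T := cofent fun i j => (D.sf.holo i j).continuousOn
  have hXc : ContinuousOn (fun q : Cn n × Matrix (Fin m) (Fin m) ℂ => q.2) (T ×ˢ univ) :=
    continuousOn_snd
  have hh' : ContinuousOn (fun q : Cn n × Matrix (Fin m) (Fin m) ℂ => h q.1) (T ×ˢ univ) :=
    clift hhc
  have hzero : ∀ C ⊆ T, IsCompact C →
      Tendsto (fun j : ℕ => ∫ x in C, dn T κ H (Q j) x * (0 : ℝ)) atTop (𝓝 0) := by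
    intro C _ _
    simp
  -- selfadjoint
  have hherm : ∀ x ∈ T, X x * h x = h x * (X x)ᴴ := by
    intro x hx
    ext a c
    have h1 := wcc T _ _ X hL.wl
      (fun x Y => ‖(Y * h x) a c - (h x * Yᴴ) a c‖)
      ((cent (cmul hXc hh') a c).sub (cent (cmul hh' (cstar hXc)) a c)).norm
      (fun _ _ => 0) (fun j => continuousOn_const) (fun j y hy => ?_) hzero x hx
    · exact sub_eq_zero.1 (norm_le_zero_iff.1 h1)
    · have h2 := ((hB j).2 y hy).1
      show ‖(XS (ε j) σ h (Q j) y * h y) a c - (h y * (XS (ε j) σ h (Q j) y)ᴴ) a c‖ ≤ 0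
      rw [h2, sub_self, norm_zero]
  -- positive semidefinite
  have hpsd : ∀ x ∈ T, (X x * h x).PosSemidef := by
    intro x hx
    have hH : (X x * h x).IsHermitian := by
      show (X x * h x)ᴴ = X x * h x
      rw [Matrix.conjTranspose_mul, (D.sf.posDef x hx).isHermitian.eq, hherm x hx]
    refine Matrix.PosSemidef.of_dotProduct_mulVec_nonneg hH fun e => ?_
    have h1 := wcc T _ _ X hL.wl
      (fun x Y => -(hermi (Y * h x) (star e) (star e)).re) ?_
      (fun _ _ => 0) (fun j => continuousOn_const) (fun j y hy => ?_) hzero x hx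
    · have h2 : hermi (X x * h x) (star e) (star e) = star e ⬝ᵥ ((X x * h x) *ᵥ e) := by
        rw [hermi_dot, star_star]
      have h3 := hH.im_star_dotProduct_mulVec_self e
      rw [h2] at h1
      rw [Complex.nonneg_iff]
      refine ⟨by linarith, ?_⟩
      simpa using h3.symm
    · refine ContinuousOn.neg (Complex.continuous_re.comp_continuousOn ?_)
      unfold hermi
      refine continuousOn_finsetSum _ fun i _ => continuousOn_finsetSum _ fun j _ => ?_
      exact ((cent (cmul hXc hh') i j).mul continuousOn_const).mul continuousOn_const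
    · have h2 := ((hB j).2 y hy).2.1.dotProduct_mulVec_nonneg e
      have h3 := (Complex.nonneg_iff.1 h2).1
      show -(hermi (XS (ε j) σ h (Q j) y * h y) (star e) (star e)).re ≤ 0
      rw [hermi_dot, star_star]
      linarith
  -- trace
  have htr : ∀ x ∈ T, Matrix.trace (X x) = (s : ℂ) := by
    intro x hx
    have htSc : ∀ j, ContinuousOn (fun y => S j - ε j * tS σ h (Q j) y) T := by
      intro j
      have := (hFCL T R σ h D.sf (Q j) (fun x => Q j x - rho (Q j) x) (hQ j)
        (fun x _ => by simp)).2.1.1.continuousOn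
      exact continuousOn_const.sub (continuousOn_const.mul this)
    have h1 := wcc T _ _ X hL.wl
      (fun x Y => ‖Matrix.trace Y - (s : ℂ)‖)
      ((ctrace hXc).sub continuousOn_const).norm
      (fun j y => |S j - s| + (S j - ε j * tS σ h (Q j) y))
      (fun j => continuousOn_const.add (htSc j)) (fun j y hy => ?_) ?_ x hx
    · exact sub_eq_zero.1 (norm_le_zero_iff.1 h1)
    · have h2 := ((hB j).2 y hy).2.2
      show ‖Matrix.trace (XS (ε j) σ h (Q j) y) - (s : ℂ)‖ ≤ _
      rw [h2, ← Complex.ofReal_sub, Complex.norm_real, Real.norm_eq_abs]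
      have h3 : ε j * tS σ h (Q j) y ≤ S j := hL.seq.m_le j y hy
      calc |ε j * tS σ h (Q j) y - s| = |(S j - s) + (-(S j - ε j * tS σ h (Q j) y))| := by
            congr 1; ring
        _ ≤ |S j - s| + |-(S j - ε j * tS σ h (Q j) y)| := abs_add_le _ _
        _ = _ := by rw [abs_neg, abs_of_nonneg (sub_nonneg.2 h3)]
    · intro C hC hCc
      obtain ⟨K, hK, hdn⟩ := hL.wb
      have h2 := hL.v C hC hCc
      have hdc : ∀ j, ContinuousOn (dn T κ H (Q j)) C := fun j => (hL.wl.wc j).mono hC
      have h4 : Tendsto (fun j => |S j - s|) atTop (𝓝 0) := by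
        refine squeeze_zero (fun j => abs_nonneg _) (fun j => ?_)
          (tendsto_one_div_add_atTop_nhds_zero_nat (𝕜 := ℝ))
        rw [abs_of_nonneg (sub_nonneg.2 (hL.seq.S_ge j))]
        have := hL.seq.S_le j
        linarith
      have h3 : Tendsto (fun j => |S j - s| * ∫ x in C, dn T κ H (Q j) x) atTop (𝓝 0) := by
        have h5 : Tendsto (fun j => |S j - s| * (K * volume.real C)) atTop (𝓝 0) := by
          have := h4.mul_const (K * volume.real C)
          rwa [zero_mul] at this
        refine squeeze_zero (fun j => mul_nonneg (abs_nonneg _)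
          (setIntegral_nonneg hCc.measurableSet fun x hx => (hdn j x (hC hx)).1.le))
          (fun j => ?_) h5
        refine mul_le_mul_of_nonneg_left ?_ (abs_nonneg _)
        have h6 : ∫ x in C, dn T κ H (Q j) x ≤ ∫ _x in C, K :=
          setIntegral_mono_on ((hdc j).integrableOn_compact hCc)
            (integrableOn_const hCc.measure_lt_top.ne) hCc.measurableSet
            fun x hx => (hdn j x (hC hx)).2
        rw [setIntegral_const, smul_eq_mul] at h6
        linarith
      have h7 := h3.add h2
      rw [add_zero] at h7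
      refine h7.congr fun j => ?_
      rw [← integral_const_mul, ← integral_add]
      · refine integral_congr_ae (Filter.Eventually.of_forall fun x => ?_)
        simp only
        ring
      · exact ((hdc j).integrableOn_compact hCc).const_mul _
      · exact ((hdc j).mul ((htSc j).mono hC)).integrableOn_compact hCc
  refine ⟨fun x hx => ⟨hherm x hx, hpsd x hx, htr x hx⟩, ?_, ?_⟩
  · intro t
    refine (win hARRB T R D.ket.et _ _ X hL.wl hL.winv).1
      (fun _ Y => (1 + (t : ℂ) • Y).det) ?_ fun j γ x y hxy => ?_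
    · exact cdet (continuousOn_const.add (hXc.const_smul (t : ℂ)))
    · exact inv_det hARRB (hQ j) D.sf.inv t (ε j) γ x y hxy
  · intro p
    refine (win hARRB T R D.ket.et _ _ X hL.wl hL.winv).2
      (fun x Y => σ x * (Y ^ p * h x) * (σ x)ᴴ) (fun i l => ?_) fun j => ?_
    · exact cent (cmul (cmul (clift hσc) (cmul (hXc.pow p) hh')) (cstar (clift hσc))) i l
    · exact inv_form_pow (hQ j) D.sf.inv (ε j) p

end Pool.Agent.Helper49.FM.FSP
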